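import Pool.Agent.H97.LAY.Stmts5
import Pool.Agent.H97.LAY.EX1

set_option autoImplicit false

namespace Pool.LAY

open Finset

theorem exs_key (rs : List ℕ) (tl : List ℝ) (v e K : ℝ) (he : 0 ≤ e) (hev : e ≤ v)
    (hQN : QNNStmt) (htl : NN tl)
    (hK : Q rs (v :: tl) + K ≤ Q rs (e :: (v - e) :: tl)) :
    ∀ (pre : List ℝ), NN pre → ∀ cs : List ℕ, pre.length ≤ cs.length →
    Q (cs ++ rs) (pre ++ v :: tl) + Q cs pre * K -
      ∑ j ∈ range cs.length, (v ^ (cs.getD j 0) - (v - e) ^ (cs.getD j 0)) *
        (Q (cs.take j) pre * Q (cs.drop (j + 1) ++ rs) tl) ≤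
    Q (cs ++ rs) (pre ++ e :: (v - e) :: tl) := by
  intro pre
  induction pre with
  | nil =>
    intro _ cs _
    cases cs with
    | nil =>
      simp only [List.nil_append, Q, List.length_nil, range_zero, sum_empty, one_mul, sub_zero]
      exact hK
    | cons c cs' =>
      have hftl : NN ((v - e) :: tl) := by
        intro y hy
        simp only [List.mem_cons] at hy
        rcases hy with rfl | hy
        · linarith
        · exact htl y hy
      have hstep := (hQN (c :: (cs' ++ rs)) ((v - e) :: tl) hftl).2 e he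
      have hz : ∑ j ∈ range (c :: cs').length,
          (v ^ ((c :: cs').getD j 0) - (v - e) ^ ((c :: cs').getD j 0)) *
          (Q ((c :: cs').take j) [] * Q ((c :: cs').drop (j + 1) ++ rs) tl) =
          (v ^ c - (v - e) ^ c) * Q (cs' ++ rs) tl := by
        rw [List.length_cons, Finset.sum_range_succ']
        rw [Finset.sum_eq_zero]
        · simp [Q]
        · intro j _
          simp [Q]
      rw [hz]
      simp only [List.nil_append, List.cons_append, Q, zero_mul, add_zero] at hstep ⊢
      linarith
  | cons x pre' ih =>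
    intro hnn cs hlen
    have hx : 0 ≤ x := hnn x (by simp)
    have hnn' : NN pre' := fun y hy => hnn y (by simp [hy])
    cases cs with
    | nil => simp at hlen
    | cons c cs' =>
      simp only [List.length_cons, Nat.add_le_add_iff_right] at hlen
      have h1 := ih hnn' cs' hlen
      have h2 := ih hnn' (c :: cs') (by simp only [List.length_cons]; omega)
      have h1x := mul_le_mul_of_nonneg_left h1 (pow_nonneg hx c)
      have hs1 : ∑ j ∈ range (c :: cs').length,
          (v ^ ((c :: cs').getD j 0) - (v - e) ^ ((c :: cs').getD j 0)) *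
          (Q ((c :: cs').take j) (x :: pre') * Q ((c :: cs').drop (j + 1) ++ rs) tl) =
          x ^ c * (∑ j ∈ range cs'.length, (v ^ (cs'.getD j 0) - (v - e) ^ (cs'.getD j 0)) *
            (Q (cs'.take j) pre' * Q (cs'.drop (j + 1) ++ rs) tl)) +
          ∑ j ∈ range (c :: cs').length,
          (v ^ ((c :: cs').getD j 0) - (v - e) ^ ((c :: cs').getD j 0)) *
          (Q ((c :: cs').take j) pre' * Q ((c :: cs').drop (j + 1) ++ rs) tl) := by
        rw [List.length_cons, Finset.sum_range_succ', Finset.sum_range_succ', Finset.mul_sum,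
          ← add_assoc, ← Finset.sum_add_distrib]
        congr 1
        · apply Finset.sum_congr rfl
          intro j _
          simp only [List.getD_cons_succ, List.take_succ_cons, List.drop_succ_cons, Q]
          ring
        · simp [Q]
      rw [hs1]
      simp only [List.cons_append, Q] at h1x h2 ⊢
      simp only [mul_sub, mul_add] at h1x
      linarith

theorem EXS (h1 : QNNStmt) : EXSStmt := by
  intro cs bs b pre tl v hb hcs hbs hlen hmax hv
  obtain ⟨hnn, hsum, hbest⟩ := hmax
  have hpre : NN pre := fun y hy => hnn y (by simp [hy])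
  have htl : NN tl := fun y hy => hnn y (by simp [hy])
  set C : ℕ → ℝ := fun j => Q (cs.take j) pre * Q (cs.drop (j + 1) ++ 1 :: b :: bs) tl with hC
  have hCnn : ∀ j, 0 ≤ C j := fun j => mul_nonneg (h1 _ _ hpre).1 (h1 _ _ htl).1
  set U := Q bs tl with hU
  set S := ∑ j ∈ range cs.length, ((cs.getD j 0 : ℕ) : ℝ) * (v ^ (cs.getD j 0 - 1) * C j) with hS
  have key : ∀ e : ℝ, 0 < e → e < v → Q cs pre * ((v - e) ^ b * U) ≤ S := by
    intro e he hev
    have hK : Q (1 :: b :: bs) (v :: tl) + e * ((v - e) ^ b * U) ≤
        Q (1 :: b :: bs) (e :: (v - e) :: tl) := by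
      simp only [Q, pow_one, hU]
      apply le_of_eq
      ring
    have hkey := exs_key (1 :: b :: bs) tl v e _ he.le hev.le h1 htl hK pre hpre cs hlen.le
    have hnn' : NN (pre ++ e :: (v - e) :: tl) := by
      intro y hy
      simp only [List.mem_append, List.mem_cons] at hy
      rcases hy with hy | rfl | rfl | hy
      · exact hpre y hy
      · exact he.le
      · linarith
      · exact htl y hy
    have hsum' : (pre ++ e :: (v - e) :: tl).sum = 1 := by
      simp only [List.sum_append, List.sum_cons] at hsum ⊢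
      linarith
    have hle := hbest _ hnn' hsum'
    have hb2 : ∑ j ∈ range cs.length, (v ^ (cs.getD j 0) - (v - e) ^ (cs.getD j 0)) *
        (Q (cs.take j) pre * Q (cs.drop (j + 1) ++ 1 :: b :: bs) tl) ≤ S * e := by
      rw [hS, Finset.sum_mul]
      apply Finset.sum_le_sum
      intro j _
      have hp := EX1_pow_sub_pow_le_aux v (v - e) (cs.getD j 0) (by linarith) (by linarith)
      have hp2 := mul_le_mul_of_nonneg_right hp (hCnn j)
      calc (v ^ (cs.getD j 0) - (v - e) ^ (cs.getD j 0)) *
            (Q (cs.take j) pre * Q (cs.drop (j + 1) ++ 1 :: b :: bs) tl)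
          ≤ ((cs.getD j 0 : ℕ) : ℝ) * v ^ (cs.getD j 0 - 1) * (v - (v - e)) * C j := hp2
        _ = ((cs.getD j 0 : ℕ) : ℝ) * (v ^ (cs.getD j 0 - 1) * C j) * e := by ring
    have h2 : Q cs pre * ((v - e) ^ b * U) * e ≤ S * e := by
      have e1 : Q cs pre * ((v - e) ^ b * U) * e = Q cs pre * (e * ((v - e) ^ b * U)) := by ring
      rw [e1]
      linarith
    exact le_of_mul_le_mul_right h2 he
  have hcont : Filter.Tendsto (fun e : ℝ => Q cs pre * ((v - e) ^ b * U))
      (nhdsWithin 0 (Set.Ioi 0)) (nhds (Q cs pre * (v ^ b * U))) := by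
    have hc : Continuous (fun e : ℝ => Q cs pre * ((v - e) ^ b * U)) := by fun_prop
    have := hc.tendsto 0
    simp only [sub_zero] at this
    exact this.mono_left nhdsWithin_le_nhds
  have hlim : Q cs pre * (v ^ b * U) ≤ S := by
    refine le_of_tendsto hcont ?_
    have : Set.Ioo (0 : ℝ) v ∈ nhdsWithin (0 : ℝ) (Set.Ioi 0) := Ioo_mem_nhdsGT hv
    filter_upwards [this] with e he
    exact key e he.1 he.2
  calc Q cs pre * (v ^ (b + 1) * Q bs tl) = v * (Q cs pre * (v ^ b * U)) := by
        rw [hU]; ring
    _ ≤ v * S := mul_le_mul_of_nonneg_left hlim hv.le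
    _ = ∑ j ∈ range cs.length, ((cs.getD j 0 : ℕ) : ℝ) * (v ^ (cs.getD j 0) *
          (Q (cs.take j) pre * Q (cs.drop (j + 1) ++ 1 :: b :: bs) tl)) := by
        rw [hS, Finset.mul_sum]
        apply Finset.sum_congr rfl
        intro j hj
        have hj' : j < cs.length := Finset.mem_range.mp hj
        have hc1 : 1 ≤ cs.getD j 0 := by
          rw [List.getD_eq_getElem _ _ hj']
          exact hcs _ (List.getElem_mem hj')
        have hpow : v ^ (cs.getD j 0) = v ^ (cs.getD j 0 - 1) * v := by
          rw [← pow_succ]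
          congr 1
          omega
        rw [hpow, hC]
        ring

end Pool.LAY
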